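import Pool.Agent.H40.TW.Targets

/-!
# The recursion of the moments (module DBL)
-/

namespace Pool.Agent.H1.TW

open Finset Pool.Agent.H40.TW

theorem sum_pc {n w : ℕ} (I : Finset (Fin n)) (f : Finset (Fin n) → ℝ) :
    ((w + 1 : ℕ) : ℝ) * ∑ U ∈ I.powersetCard (w + 1), f U =
      ∑ i ∈ I, ∑ V ∈ (I.erase i).powersetCard w, f (insert i V) := by
  classical
  have h1 : ((w + 1 : ℕ) : ℝ) * ∑ U ∈ I.powersetCard (w + 1), f U =
      ∑ U ∈ I.powersetCard (w + 1), ∑ i ∈ U, f U := by
    rw [mul_sum]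
    refine sum_congr rfl fun U hU => ?_
    rw [sum_const, (mem_powersetCard.1 hU).2, nsmul_eq_mul]
  rw [h1, sum_sigma', sum_sigma']
  refine sum_bij' (fun p _ => (⟨p.2, p.1.erase p.2⟩ : Σ _ : Fin n, Finset (Fin n)))
    (fun p _ => (⟨insert p.1 p.2, p.1⟩ : Σ _ : Finset (Fin n), Fin n)) ?_ ?_ ?_ ?_ ?_
  · rintro ⟨U, i⟩ h
    simp only [mem_sigma, mem_powersetCard] at h ⊢
    obtain ⟨⟨h1, h2⟩, h3⟩ := h
    refine ⟨h1 h3, erase_subset_erase _ h1, ?_⟩
    rw [card_erase_of_mem h3, h2]
    rfl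
  · rintro ⟨i, V⟩ h
    simp only [mem_sigma, mem_powersetCard] at h ⊢
    obtain ⟨h1, h2, h3⟩ := h
    have hi : i ∉ V := fun hh => absurd (h2 hh) (notMem_erase i I)
    refine ⟨⟨?_, ?_⟩, mem_insert_self _ _⟩
    · intro j hj
      rcases mem_insert.1 hj with rfl | hj
      · exact h1
      · exact erase_subset _ _ (h2 hj)
    · rw [card_insert_of_notMem hi, h3]
  · rintro ⟨U, i⟩ h
    simp only [mem_sigma, mem_powersetCard] at h
    simp only [insert_erase h.2]
  · rintro ⟨i, V⟩ h
    simp only [mem_sigma, mem_powersetCard] at h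
    have hi : i ∉ V := fun hh => absurd (h.2.1 hh) (notMem_erase i I)
    simp only [erase_insert hi]
  · rintro ⟨U, i⟩ h
    simp only [mem_sigma, mem_powersetCard] at h
    simp only [insert_erase h.2]

theorem cls_insert {n : ℕ} (P : Finset (Fin n → Bool)) (V : Finset (Fin n)) (i : Fin n)
    (x : Fin n → Bool) (b : Bool) (hx : x i = b) :
    cls P (insert i V) x = cls (P.filter (fun y => y i = b)) V x := by
  ext y
  simp only [cls, mem_filter, mem_insert, forall_eq_or_imp, hx]
  tauto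

theorem dbl : T_DBL := by
  intro n w t I P
  unfold mom
  rw [sum_pc I (fun U => ∑ x ∈ P, ((cls P U x).card : ℝ) ^ t)]
  refine sum_congr rfl fun i _ => ?_
  rw [← sum_add_distrib]
  refine sum_congr rfl fun V _ => ?_
  have hsplit : ∑ x ∈ P, ((cls P (insert i V) x).card : ℝ) ^ t =
      ∑ x ∈ P.filter (fun x => x i = true), ((cls P (insert i V) x).card : ℝ) ^ t +
        ∑ x ∈ P.filter (fun x => ¬ x i = true), ((cls P (insert i V) x).card : ℝ) ^ t :=
    (sum_filter_add_sum_filter_not P _ _).symm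
  have hf : P.filter (fun x => ¬ x i = true) = P.filter (fun x => x i = false) := by
    refine filter_congr fun x _ => ?_
    simp
  rw [hsplit, hf]
  congr 1
  · refine sum_congr rfl fun x hx => ?_
    rw [cls_insert P V i x true (mem_filter.1 hx).2]
  · refine sum_congr rfl fun x hx => ?_
    rw [cls_insert P V i x false (mem_filter.1 hx).2]

end Pool.Agent.H1.TW
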