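import Pool.Agent.H40.TW.Targets
import Pool.Agent.H80.SH.Targets

/-!
# Few clauses are dense in a large set (module DEN)
-/

namespace Pool.Agent.H1.TW

open Finset Pool.Agent.H40.TW Pool.Agent.H80.SH

theorem card_agree {n : ℕ} (U : Finset (Fin n)) (x : Fin n → Bool) :
    (univ.filter (fun y : Fin n → Bool => ∀ i ∈ U, x i = y i)).card * 2 ^ U.card = 2 ^ n := by
  classical
  have h := Fintype.card_congr (Equiv.piEquivPiSubtypeProd (fun i : Fin n => i ∈ U)
    (fun _ => Bool))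
  have e : {y : Fin n → Bool // ∀ i ∈ U, x i = y i} ≃ ({i : Fin n // ¬ i ∈ U} → Bool) :=
    { toFun := fun y i => y.1 i.1
      invFun := fun z => ⟨fun i => if h : i ∈ U then x i else z ⟨i, h⟩, fun i hi => by
        simp only [dif_pos hi]⟩
      left_inv := by
        rintro ⟨y, hy⟩
        ext i
        by_cases hi : i ∈ U
        · simp only [dif_pos hi, hy i hi]
        · simp only [dif_neg hi]
      right_inv := by
        intro z
        ext ⟨i, hi⟩
        simp only [dif_neg hi] }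
  have h1 : (univ.filter (fun y : Fin n → Bool => ∀ i ∈ U, x i = y i)).card =
      Fintype.card {y : Fin n → Bool // ∀ i ∈ U, x i = y i} := by
    rw [Fintype.card_subtype]
  rw [h1, Fintype.card_congr e, Fintype.card_fun, Fintype.card_bool,
    Fintype.card_subtype_compl, Fintype.card_fin, Fintype.card_coe, ← pow_add]
  congr 1
  have := card_le_univ U
  rw [Fintype.card_fin] at this
  omega

theorem sum_cls {n w : ℕ} (t : ℝ) (ht : 0 ≤ t) (P : Finset (Fin n → Bool)) :
    (∑ c : Cl n w, ((P ∩ VC c).card : ℝ) ^ (1 + t)) * 2 ^ w = 2 ^ n * mom t w univ P := by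
  classical
  have h0 : ∀ c : Cl n w, P ∩ VC c = cls P c.1.1 c.2 := by
    intro c
    ext x
    simp [VC, cls]
  have h1 : ∑ c : Cl n w, ((P ∩ VC c).card : ℝ) ^ (1 + t) =
      ∑ U : {U : Finset (Fin n) // U.card = w}, ∑ y : Fin n → Bool,
        ((cls P U.1 y).card : ℝ) ^ (1 + t) := by
    rw [← Fintype.sum_prod_type']
    exact sum_congr rfl fun c _ => by rw [h0]
  have h2 : ∀ U : {U : Finset (Fin n) // U.card = w},
      (∑ y : Fin n → Bool, ((cls P U.1 y).card : ℝ) ^ (1 + t)) * 2 ^ w =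
        2 ^ n * ∑ x ∈ P, ((cls P U.1 x).card : ℝ) ^ t := by
    intro U
    have h3 : ∀ y : Fin n → Bool, ((cls P U.1 y).card : ℝ) ^ (1 + t) =
        ∑ x ∈ P, if ∀ i ∈ U.1, x i = y i then ((cls P U.1 x).card : ℝ) ^ t else 0 := by
      intro y
      rw [← sum_filter]
      have h4 : ∀ x ∈ P.filter (fun x => ∀ i ∈ U.1, x i = y i),
          ((cls P U.1 x).card : ℝ) ^ t = ((cls P U.1 y).card : ℝ) ^ t := by
        intro x hx
        have h5 : cls P U.1 x = cls P U.1 y := by
          unfold cls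
          refine filter_congr fun z _ => ?_
          constructor
          · intro h i hi; rw [h i hi, (mem_filter.1 hx).2 i hi]
          · intro h i hi; rw [h i hi, (mem_filter.1 hx).2 i hi]
        rw [h5]
      rw [sum_congr rfl h4, sum_const, nsmul_eq_mul, Real.rpow_add_of_nonneg
        (Nat.cast_nonneg _) zero_le_one ht, Real.rpow_one]
      rfl
    rw [sum_congr rfl fun y _ => h3 y, sum_comm, sum_mul, mul_sum]
    refine sum_congr rfl fun x _ => ?_
    rw [← sum_filter, sum_const, nsmul_eq_mul]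
    have h6 := card_agree U.1 x
    rw [U.2] at h6
    have h7 : ((univ.filter (fun y : Fin n → Bool => ∀ i ∈ U.1, x i = y i)).card : ℝ) * 2 ^ w =
        2 ^ n := by exact_mod_cast h6
    calc _ = (((univ.filter (fun y : Fin n → Bool => ∀ i ∈ U.1, x i = y i)).card : ℝ) * 2 ^ w) *
          ((cls P U.1 x).card : ℝ) ^ t := by ring
      _ = _ := by rw [h7]
  rw [h1, sum_mul, sum_congr rfl fun U _ => h2 U, ← mul_sum]
  congr 1
  unfold mom
  have h8 : ∑ U : {U : Finset (Fin n) // U.card = w}, ∑ x ∈ P, ((cls P U.1 x).card : ℝ) ^ t =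
      ∑ U ∈ (univ : Finset (Finset (Fin n))).filter (fun U => U.card = w),
        ∑ x ∈ P, ((cls P U x).card : ℝ) ^ t := by
    exact (sum_subtype _ (fun U => by simp) (fun U => ∑ x ∈ P, ((cls P U x).card : ℝ) ^ t)).symm
  rw [h8]
  refine sum_congr ?_ fun _ _ => rfl
  ext U
  simp [mem_powersetCard]

theorem den (hREC : T_REC) (hPRS : T_PRS) : T_DEN := by
  classical
  intro n w H t G P hw hH ht0 ht1 hG hrho hP
  set rho : ℝ := 1 + t ^ 2 - t * Real.log G / n with hrhodef
  have hPc : (0 : ℝ) < P.card := by exact_mod_cast card_pos.2 hP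
  have hPt : (0 : ℝ) < (P.card : ℝ) ^ (1 + t) := Real.rpow_pos_of_pos hPc _
  have hH0 : (0 : ℝ) ≤ H := Nat.cast_nonneg _
  -- number of dense clauses
  have h1 : ((dense (VC : Cl n w → _) H P).card : ℝ) * (P.card : ℝ) ^ (1 + t) ≤
      (H : ℝ) ^ (1 + t) * ∑ c : Cl n w, ((P ∩ VC c).card : ℝ) ^ (1 + t) := by
    rw [mul_sum]
    have h2 : ∀ c ∈ dense (VC : Cl n w → _) H P, (P.card : ℝ) ^ (1 + t) ≤
        (H : ℝ) ^ (1 + t) * ((P ∩ VC c).card : ℝ) ^ (1 + t) := by
      intro c hc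
      rw [← Real.mul_rpow hH0 (Nat.cast_nonneg _)]
      refine Real.rpow_le_rpow hPc.le ?_ (by linarith)
      have := (mem_filter.1 hc).2
      exact_mod_cast this
    calc _ = ∑ c ∈ dense (VC : Cl n w → _) H P, (P.card : ℝ) ^ (1 + t) := by
          rw [sum_const, nsmul_eq_mul]
      _ ≤ ∑ c ∈ dense (VC : Cl n w → _) H P,
          (H : ℝ) ^ (1 + t) * ((P ∩ VC c).card : ℝ) ^ (1 + t) := sum_le_sum h2
      _ ≤ _ := by
          refine sum_le_sum_of_subset_of_nonneg (subset_univ _) fun c _ _ => ?_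
          exact mul_nonneg (Real.rpow_nonneg hH0 _) (Real.rpow_nonneg (Nat.cast_nonneg _) _)
  have h3 := sum_cls (w := w) t ht0 P
  have h4 := hREC n w t G univ P ht0 ht1 hG hrho hP (fun x _ y _ i hi => absurd (mem_univ i) hi)
  rw [card_univ, Fintype.card_fin] at h4
  have h5 : (Fintype.card (Cl n w) : ℝ) = (n.choose w : ℝ) * 2 ^ n := by
    rw [(hPRS n w hw).1]
    push_cast
    ring
  have h6 : (G / P.card) ^ (1 + t) * (P.card : ℝ) ^ (1 + t) = G ^ (1 + t) := by
    rw [← Real.mul_rpow (div_nonneg (by linarith) hPc.le) hPc.le, div_mul_cancel₀ _ hPc.ne']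
  have hHt : (0 : ℝ) ≤ (H : ℝ) ^ (1 + t) := Real.rpow_nonneg hH0 _
  refine le_of_mul_le_mul_right ?_ hPt
  calc ((dense (VC : Cl n w → _) H P).card : ℝ) * 2 ^ w * (P.card : ℝ) ^ (1 + t)
      = (((dense (VC : Cl n w → _) H P).card : ℝ) * (P.card : ℝ) ^ (1 + t)) * 2 ^ w := by ring
    _ ≤ ((H : ℝ) ^ (1 + t) * ∑ c : Cl n w, ((P ∩ VC c).card : ℝ) ^ (1 + t)) * 2 ^ w :=
        mul_le_mul_of_nonneg_right h1 (by positivity)
    _ = (H : ℝ) ^ (1 + t) * (2 ^ n * mom t w univ P) := by rw [mul_assoc, h3]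
    _ ≤ (H : ℝ) ^ (1 + t) * (2 ^ n * ((n.choose w : ℝ) *
          (rho ^ w * (P.card : ℝ) ^ (1 + t) + 2 ^ w * G ^ (1 + t)))) := by
        refine mul_le_mul_of_nonneg_left (mul_le_mul_of_nonneg_left h4 (by positivity)) hHt
    _ = _ := by
        rw [h5, ← h6]
        ring

end Pool.Agent.H1.TW
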