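import Pool.Agent.H40.TW.Targets2

/-!
# A sequence of configurations is a derivation (module PTH)
-/

namespace Pool.Agent.H1.TW

open Finset Pool.Agent.H40.TW

theorem pth : T_PTH := by
  intro X ι V L k B j hk hB hB0 hj hstep
  obtain ⟨k, rfl⟩ : ∃ k', k = k' + 1 := ⟨k - 1, by omega⟩
  classical
  let pr : Fin (k + 2) → Fin (k + 1) := fun i => ⟨i.1 - 1, by omega⟩
  refine ⟨{ T := k + 2
            A := fun i => B i.1
            P := fun i => if i.1 = 0 then ∅ else {(pr i).castSucc}
            par := fun t => ⟨t.1 - 1, by omega⟩
            bag := fun t => {t.castSucc, t.succ}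
            J := fun t => j t.1
            E := fun _ => ∅
            home := pr
            top := pr
            mem := ?_
            lt := ?_
            sound := ?_
            card_bag := ?_
            card_J := ?_
            card_E := ?_
            home_mem := ?_
            prem_mem := ?_
            par_le := ?_
            conn := ?_ }, Fin.last (k + 1), rfl⟩
  · intro i
    exact hB _ (by omega)
  · intro i a ha
    by_cases hi : i.1 = 0
    · rw [if_pos hi] at ha
      exact absurd ha (notMem_empty _)
    · rw [if_neg hi, mem_singleton] at ha
      subst ha
      change i.1 - 1 < i.1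
      omega
  · intro i x hx
    by_cases hi : i.1 = 0
    · rw [hi, hB0] at hx
      exact absurd hx (notMem_empty _)
    · have h1 : i.1 - 1 + 1 = i.1 := by omega
      rcases hstep (i.1 - 1) (by omega) x (by rw [h1]; exact hx) with h | h
      · left
        refine ⟨(pr i).castSucc, ?_, h⟩
        rw [if_neg hi]
        exact mem_singleton_self _
      · right; left
        exact h
  · intro t
    exact card_le_two
  · intro t
    exact hj _
  · intro t
    simp
  · intro i
    rw [mem_insert, mem_singleton]
    by_cases hi : i.1 = 0
    · left
      apply Fin.ext
      change i.1 = i.1 - 1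
      omega
    · right
      apply Fin.ext
      change i.1 = i.1 - 1 + 1
      omega
  · intro i a ha
    by_cases hi : i.1 = 0
    · rw [if_pos hi] at ha
      exact absurd ha (notMem_empty _)
    · rw [if_neg hi] at ha
      rw [mem_singleton] at ha
      subst ha
      exact mem_insert_self _ _
  · intro t
    change t.1 - 1 ≤ t.1
    omega
  · intro t i hi ht
    rw [mem_insert, mem_singleton] at hi
    rcases hi with hi | hi
    · have h1 : i.1 = t.1 := by rw [hi]; rfl
      have h2 : t.1 ≠ i.1 - 1 := fun h => ht (Fin.ext h)
      refine ⟨?_, ?_⟩
      · intro h
        have h3 : t.1 - 1 = t.1 := congrArg Fin.val h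
        omega
      · rw [mem_insert, mem_singleton]
        right
        apply Fin.ext
        change i.1 = t.1 - 1 + 1
        omega
    · exfalso
      apply ht
      apply Fin.ext
      have h1 : i.1 = t.1 + 1 := by rw [hi]; rfl
      change t.1 = i.1 - 1
      omega

end Pool.Agent.H1.TW
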