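import Pool.Agent.H40.TW.Targets

/-!
# The bound for the moments (module REC)
-/

namespace Pool.Agent.H1.TW

open Finset Pool.Agent.H40.TW

theorem mom_le_card {n : ℕ} (w : ℕ) (t : ℝ) (I : Finset (Fin n)) (P : Finset (Fin n → Bool))
    (ht : 0 ≤ t) : mom t w I P ≤ (I.card.choose w : ℝ) * (P.card * (P.card : ℝ) ^ t) := by
  classical
  unfold mom
  have h : ∀ U ∈ I.powersetCard w, ∑ x ∈ P, ((cls P U x).card : ℝ) ^ t ≤
      P.card * (P.card : ℝ) ^ t := by
    intro U _
    have h1 : ∀ x ∈ P, ((cls P U x).card : ℝ) ^ t ≤ (P.card : ℝ) ^ t := by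
      intro x _
      refine Real.rpow_le_rpow (Nat.cast_nonneg _) ?_ ht
      exact_mod_cast card_le_card (filter_subset _ _)
    calc _ ≤ ∑ x ∈ P, (P.card : ℝ) ^ t := sum_le_sum h1
      _ = _ := by rw [sum_const, nsmul_eq_mul]
  calc _ ≤ ∑ U ∈ I.powersetCard w, (P.card * (P.card : ℝ) ^ t : ℝ) := sum_le_sum h
    _ = _ := by rw [sum_const, nsmul_eq_mul, card_powersetCard]

theorem pow_one_add {a t : ℝ} (ha : 0 ≤ a) (ht : 0 ≤ t) : a ^ (1 + t) = a * a ^ t := by
  rw [Real.rpow_add_of_nonneg ha zero_le_one ht, Real.rpow_one]

theorem rec_ (hENT : T_ENT) (hONE : T_ONE) (hDBL : T_DBL) : T_REC := by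
  classical
  intro n w t G I P ht0 ht1 hG hrho
  induction w generalizing I P with
  | zero =>
    intro hP hI
    have h1 := mom_le_card (n := n) 0 t I P ht0
    rw [← pow_one_add (Nat.cast_nonneg _) ht0] at h1
    refine h1.trans ?_
    have hG0 : (0 : ℝ) ≤ G ^ (1 + t) := Real.rpow_nonneg (by linarith) _
    simp only [Nat.choose_zero_right, Nat.cast_one, one_mul, pow_zero]
    linarith
  | succ w ih =>
    intro hP hI
    set rho : ℝ := 1 + t ^ 2 - t * Real.log G / n with hrhodef
    have hG0 : (0 : ℝ) ≤ G ^ (1 + t) := Real.rpow_nonneg (by linarith) _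
    have hchoose : (0 : ℝ) ≤ (I.card.choose (w + 1) : ℝ) := Nat.cast_nonneg _
    by_cases hPG : (P.card : ℝ) ≤ G
    · have h1 := mom_le_card (n := n) (w + 1) t I P ht0
      rw [← pow_one_add (Nat.cast_nonneg _) ht0] at h1
      refine h1.trans (mul_le_mul_of_nonneg_left ?_ hchoose)
      have h2 : (P.card : ℝ) ^ (1 + t) ≤ G ^ (1 + t) :=
        Real.rpow_le_rpow (Nat.cast_nonneg _) hPG (by linarith)
      have h3 : (0 : ℝ) ≤ rho ^ (w + 1) * (P.card : ℝ) ^ (1 + t) :=
        mul_nonneg (pow_nonneg hrho _) (Real.rpow_nonneg (Nat.cast_nonneg _) _)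
      have h4 : (1 : ℝ) ≤ 2 ^ (w + 1) := one_le_pow₀ (by norm_num)
      nlinarith
    · push Not at hPG
      have hPc : (0 : ℝ) < P.card := by linarith
      have hih : ∀ i ∈ I, ∀ b : Bool,
          mom t w (I.erase i) (P.filter (fun x => x i = b)) ≤ ((I.card - 1).choose w : ℝ) *
            (rho ^ w * ((P.filter (fun x => x i = b)).card : ℝ) ^ (1 + t) +
              2 ^ w * G ^ (1 + t)) := by
        intro i hi b
        rcases (P.filter (fun x => x i = b)).eq_empty_or_nonempty with he | hne
        · rw [he]
          have h1 : mom t w (I.erase i) (∅ : Finset (Fin n → Bool)) = 0 := by simp [mom]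
          rw [h1]
          have h3 : (0 : ℝ) ≤ rho ^ w * ((∅ : Finset (Fin n → Bool)).card : ℝ) ^ (1 + t) :=
            mul_nonneg (pow_nonneg hrho _) (Real.rpow_nonneg (Nat.cast_nonneg _) _)
          positivity
        · have h := ih (I.erase i) (P.filter (fun x => x i = b)) hne (by
            intro x hx y hy j hj
            rw [mem_filter] at hx hy
            by_cases hji : j = i
            · rw [hji, hx.2, hy.2]
            · exact hI x hx.1 y hy.1 j fun hjI => hj (mem_erase.2 ⟨hji, hjI⟩))
          rwa [card_erase_of_mem hi] at h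
      -- one step
      have hstep : ∀ i ∈ I,
          mom t w (I.erase i) (P.filter (fun x => x i = true)) +
            mom t w (I.erase i) (P.filter (fun x => x i = false)) ≤
          ((I.card - 1).choose w : ℝ) *
            (rho ^ w * ((P.card : ℝ) ^ (1 + t) *
              (1 - t * Real.binEntropy (frac P i) + t ^ 2)) + 2 ^ (w + 1) * G ^ (1 + t)) := by
        intro i hi
        have h1 := hih i hi true
        have h2 := hih i hi false
        have hsum : ((P.filter (fun x => x i = true)).card : ℝ) +
            ((P.filter (fun x => x i = false)).card : ℝ) = P.card := by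
          have h3 := card_filter_add_card_filter_not (s := P) (p := fun x => x i = true)
          have h4 : P.filter (fun x => ¬ x i = true) = P.filter (fun x => x i = false) :=
            filter_congr fun x _ => by simp
          rw [h4] at h3
          exact_mod_cast h3
        have h5 := hONE _ _ t (Nat.cast_nonneg (P.filter (fun x => x i = true)).card)
          (Nat.cast_nonneg (P.filter (fun x => x i = false)).card) (by rw [hsum]; exact hPc)
          ht0 ht1
        rw [hsum] at h5
        have h6 : ((P.filter (fun x => x i = true)).card : ℝ) / P.card = frac P i := rfl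
        rw [h6] at h5
        have h7 : (0 : ℝ) ≤ ((I.card - 1).choose w : ℝ) := Nat.cast_nonneg _
        have h8 : (0 : ℝ) ≤ rho ^ w := pow_nonneg hrho _
        calc _ ≤ ((I.card - 1).choose w : ℝ) *
              (rho ^ w * ((P.filter (fun x => x i = true)).card : ℝ) ^ (1 + t) +
                2 ^ w * G ^ (1 + t)) + ((I.card - 1).choose w : ℝ) *
              (rho ^ w * ((P.filter (fun x => x i = false)).card : ℝ) ^ (1 + t) +
                2 ^ w * G ^ (1 + t)) := add_le_add h1 h2
          _ = ((I.card - 1).choose w : ℝ) *
              (rho ^ w * (((P.filter (fun x => x i = true)).card : ℝ) ^ (1 + t) +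
                ((P.filter (fun x => x i = false)).card : ℝ) ^ (1 + t)) +
                2 ^ (w + 1) * G ^ (1 + t)) := by ring
          _ ≤ _ := by
              refine mul_le_mul_of_nonneg_left ?_ h7
              have := mul_le_mul_of_nonneg_left h5 h8
              linarith
      -- the sum of the entropies
      have hent : (I.card : ℝ) * (1 + t ^ 2) - t * ∑ i ∈ I, Real.binEntropy (frac P i) ≤
          I.card * rho := by
        have h1 := hENT n P hP
        have h2 : ∑ i, Real.binEntropy (frac P i) = ∑ i ∈ I, Real.binEntropy (frac P i) := by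
          symm
          refine sum_subset (subset_univ I) fun i _ hi => ?_
          obtain ⟨x, hx⟩ := hP
          have hall : ∀ y ∈ P, y i = x i := fun y hy => hI y hy x hx i hi
          by_cases hb : x i = true
          · have : P.filter (fun x => x i = true) = P :=
              filter_true_of_mem fun y hy => by rw [hall y hy, hb]
            unfold frac
            rw [this, div_self hPc.ne', Real.binEntropy_one]
          · have : P.filter (fun x => x i = true) = ∅ :=
              filter_false_of_mem fun y hy => by rw [hall y hy]; exact hb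
            unfold frac
            rw [this, card_empty, Nat.cast_zero, zero_div, Real.binEntropy_zero]
        rw [h2] at h1
        have h3 : Real.log G ≤ Real.log P.card := Real.log_le_log (by linarith) hPG.le
        have h4 : 0 ≤ Real.log G := Real.log_nonneg hG
        have h5 : (I.card : ℝ) * (t * Real.log G / n) ≤ t * Real.log G := by
          rcases Nat.eq_zero_or_pos n with hn | hn
          · subst hn
            simp only [Nat.cast_zero, div_zero, mul_zero]
            exact mul_nonneg ht0 h4
          · have hn' : (0 : ℝ) < n := by exact_mod_cast hn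
            have hIn : (I.card : ℝ) ≤ n := by
              have := card_le_univ I
              rw [Fintype.card_fin] at this
              exact_mod_cast this
            rw [← mul_div_assoc, div_le_iff₀ hn']
            have h6 : 0 ≤ t * Real.log G := mul_nonneg ht0 h4
            nlinarith
        have h6 : t * Real.log G ≤ t * ∑ i ∈ I, Real.binEntropy (frac P i) :=
          mul_le_mul_of_nonneg_left (h3.trans h1) ht0
        rw [hrhodef]
        nlinarith
      -- summation
      have hkey : ((w + 1 : ℕ) : ℝ) * mom t (w + 1) I P ≤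
          (I.card : ℝ) * ((I.card - 1).choose w : ℝ) *
            (rho ^ (w + 1) * (P.card : ℝ) ^ (1 + t) + 2 ^ (w + 1) * G ^ (1 + t)) := by
        rw [hDBL]
        refine (sum_le_sum hstep).trans ?_
        rw [← mul_sum, sum_add_distrib, sum_const, nsmul_eq_mul]
        have h7 : (0 : ℝ) ≤ ((I.card - 1).choose w : ℝ) := Nat.cast_nonneg _
        have h8 : (0 : ℝ) ≤ rho ^ w := pow_nonneg hrho _
        have h9 : (0 : ℝ) ≤ (P.card : ℝ) ^ (1 + t) := Real.rpow_nonneg (Nat.cast_nonneg _) _
        have h10 : ∑ i ∈ I, rho ^ w * ((P.card : ℝ) ^ (1 + t) *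
            (1 - t * Real.binEntropy (frac P i) + t ^ 2)) =
            rho ^ w * (P.card : ℝ) ^ (1 + t) *
              ((I.card : ℝ) * (1 + t ^ 2) - t * ∑ i ∈ I, Real.binEntropy (frac P i)) := by
          rw [← mul_sum, ← mul_sum]
          have : ∑ i ∈ I, (1 - t * Real.binEntropy (frac P i) + t ^ 2) =
              (I.card : ℝ) * (1 + t ^ 2) - t * ∑ i ∈ I, Real.binEntropy (frac P i) := by
            rw [mul_sum, ← nsmul_eq_mul, ← sum_const, ← sum_sub_distrib]
            exact sum_congr rfl fun i _ => by ring
          rw [this]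
          ring
        rw [h10]
        have h11 := mul_le_mul_of_nonneg_left hent (mul_nonneg h8 h9)
        have h12 := mul_le_mul_of_nonneg_left h11 h7
        have h13 : rho ^ (w + 1) = rho ^ w * rho := pow_succ _ _
        rw [h13]
        calc _ = ((I.card - 1).choose w : ℝ) * (rho ^ w * (P.card : ℝ) ^ (1 + t) *
              ((I.card : ℝ) * (1 + t ^ 2) - t * ∑ i ∈ I, Real.binEntropy (frac P i))) +
              (I.card : ℝ) * ((I.card - 1).choose w : ℝ) * (2 ^ (w + 1) * G ^ (1 + t)) := by ring
          _ ≤ ((I.card - 1).choose w : ℝ) * (rho ^ w * (P.card : ℝ) ^ (1 + t) *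
              (I.card * rho)) +
              (I.card : ℝ) * ((I.card - 1).choose w : ℝ) * (2 ^ (w + 1) * G ^ (1 + t)) := by
            linarith
          _ = _ := by ring
      have hch : (I.card : ℝ) * ((I.card - 1).choose w : ℝ) =
          ((w + 1 : ℕ) : ℝ) * (I.card.choose (w + 1) : ℝ) := by
        rcases Nat.eq_zero_or_pos I.card with h0 | h0
        · rw [h0]
          simp
        · have h1 := Nat.add_one_mul_choose_eq (I.card - 1) w
          rw [Nat.sub_add_cancel h0] at h1
          have h2 : (I.card : ℝ) * ((I.card - 1).choose w : ℝ) =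
              (I.card.choose (w + 1) : ℝ) * ((w + 1 : ℕ) : ℝ) := by
            exact_mod_cast h1
          rw [h2]
          ring
      rw [hch, mul_assoc] at hkey
      exact le_of_mul_le_mul_left hkey (by positivity)

end Pool.Agent.H1.TW
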