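import Pool.Agent.H40.TW.Targets4

/-!
# TRE: a tree-like derivation is a derivation
-/

set_option autoImplicit false

namespace Pool.Agent.H1.TW

open Finset Pool.Agent.H40.TW

variable {X ι : Type}

/-- tree-like derivations with numbered lines; `c i` is the line derived from the line `i` -/
def TN (V : ι → Finset X) (L : Finset (Finset X)) (s : ℕ) (A0 : Finset X) : Prop :=
  ∃ (A : ℕ → Finset X) (c : ℕ → ℕ) (o : ℕ → Option ι), 0 < s ∧ A (s - 1) = A0 ∧
    (∀ i < s, A i ∈ L) ∧ (∀ i, i + 1 < s → i < c i ∧ c i < s) ∧
    (∀ i < s, ∀ x ∈ A i, (∃ a, a + 1 < s ∧ c a = i ∧ x ∈ A a) ∨ ∃ j ∈ o i, x ∈ V j) ∧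
    ∀ i < s, ∃ a b, ∀ d, d + 1 < s → c d = i → d = a ∨ d = b

theorem tn_of_tl {V : ι → Finset X} {L : Finset (Finset X)} {s : ℕ} {A : Finset X}
    (h : TL V L s A) : TN V L s A := by
  induction h with
  | @leaf A o hA hx =>
    refine ⟨fun _ => A, fun i => i, fun _ => o, one_pos, rfl, fun _ _ => hA, ?_, ?_, ?_⟩
    · intro i hi
      omega
    · intro i _ x hxA
      exact Or.inr (hx x hxA)
    · intro i _
      exact ⟨0, 0, fun d hd => by omega⟩
  | @one s A0 B o0 _ hA hx ih =>
    obtain ⟨A, c, o, hs, hB, hL, hc, hsd, hp⟩ := ih
    refine ⟨fun i => if i < s then A i else A0, fun i => if i + 1 < s then c i else s,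
      fun i => if i < s then o i else o0, Nat.succ_pos _, ?_, ?_, ?_, ?_, ?_⟩
    · simp
    · intro i hi
      by_cases h1 : i < s
      · simp only [h1, if_true]
        exact hL i h1
      · simp only [h1, if_false]
        exact hA
    · intro i hi
      by_cases h1 : i + 1 < s
      · have := hc i h1
        simp only [h1, if_true]
        omega
      · simp only [h1, if_false]
        omega
    · intro i hi x hxA
      by_cases h1 : i < s
      · simp only [h1, if_true] at hxA ⊢
        rcases hsd i h1 x hxA with ⟨a, ha, hca, hxa⟩ | h2
        · left
          refine ⟨a, by omega, ?_, ?_⟩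
          · rw [if_pos ha]; exact hca
          · rw [if_pos (by omega)]; exact hxa
        · exact Or.inr h2
      · simp only [h1, if_false] at hxA ⊢
        have hi' : i = s := by omega
        rcases hx x hxA with h2 | h2
        · left
          refine ⟨s - 1, by omega, ?_, ?_⟩
          · rw [if_neg (by omega)]; exact hi'.symm
          · rw [if_pos (by omega), hB]; exact h2
        · exact Or.inr h2
    · intro i hi
      by_cases h1 : i < s
      · obtain ⟨a, b, hab⟩ := hp i h1
        refine ⟨a, b, fun d hd hcd => ?_⟩
        by_cases h2 : d + 1 < s
        · simp only [h2, if_true] at hcd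
          exact hab d h2 hcd
        · simp only [h2, if_false] at hcd
          omega
      · refine ⟨s - 1, s - 1, fun d hd hcd => ?_⟩
        by_cases h2 : d + 1 < s
        · simp only [h2, if_true] at hcd
          have := hc d h2
          omega
        · left
          omega
  | @two s s' A0 B C _ _ hA hx ih ih' =>
    obtain ⟨A, c, o, hs, hB, hL, hc, hsd, hp⟩ := ih
    obtain ⟨A', c', o', hs', hC, hL', hc', hsd', hp'⟩ := ih'
    refine ⟨fun i => if i < s then A i else if i < s + s' then A' (i - s) else A0,
      fun i => if i + 1 < s then c i else if i < s then s + s' else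
        if i + 1 < s + s' then s + c' (i - s) else s + s',
      fun i => if i < s then o i else if i < s + s' then o' (i - s) else none,
      Nat.succ_pos _, ?_, ?_, ?_, ?_, ?_⟩
    · have h1 : ¬ (s + s' < s) := by omega
      simp [h1]
    · intro i hi
      by_cases h1 : i < s
      · simp only [h1, if_true]
        exact hL i h1
      · by_cases h2 : i < s + s'
        · simp only [h1, if_false, h2, if_true]
          exact hL' _ (by omega)
        · simp only [h1, if_false, h2]
          exact hA
    · intro i hi
      by_cases h1 : i + 1 < s
      · have := hc i h1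
        simp only [h1, if_true]
        omega
      · by_cases h2 : i < s
        · simp only [h1, if_false, h2, if_true]
          omega
        · by_cases h3 : i + 1 < s + s'
          · have := hc' (i - s) (by omega)
            simp only [h1, if_false, h2, h3, if_true]
            omega
          · simp only [h1, if_false, h2, h3]
            omega
    · intro i hi x hxA
      by_cases h1 : i < s
      · simp only [h1, if_true] at hxA ⊢
        rcases hsd i h1 x hxA with ⟨a, ha, hca, hxa⟩ | h2
        · left
          refine ⟨a, by omega, ?_, ?_⟩
          · rw [if_pos ha]; exact hca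
          · rw [if_pos (by omega)]; exact hxa
        · exact Or.inr h2
      · by_cases h2 : i < s + s'
        · simp only [h1, if_false, h2, if_true] at hxA ⊢
          rcases hsd' (i - s) (by omega) x hxA with ⟨a, ha, hca, hxa⟩ | h3
          · left
            refine ⟨s + a, by omega, ?_, ?_⟩
            · rw [if_neg (by omega), if_neg (by omega), if_pos (by omega),
                Nat.add_sub_cancel_left, hca]
              omega
            · rw [if_neg (by omega), if_pos (by omega), Nat.add_sub_cancel_left]
              exact hxa
          · exact Or.inr h3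
        · simp only [h1, if_false, h2] at hxA ⊢
          have hi' : i = s + s' := by omega
          left
          rcases hx x hxA with h3 | h3
          · refine ⟨s - 1, by omega, ?_, ?_⟩
            · rw [if_neg (by omega), if_pos (by omega)]; exact hi'.symm
            · rw [if_pos (by omega), hB]; exact h3
          · refine ⟨s + s' - 1, by omega, ?_, ?_⟩
            · rw [if_neg (by omega), if_neg (by omega), if_neg (by omega)]; exact hi'.symm
            · have e : s + s' - 1 - s = s' - 1 := by omega
              rw [if_neg (by omega), if_pos (by omega), e, hC]; exact h3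
    · intro i hi
      by_cases h1 : i < s
      · obtain ⟨a, b, hab⟩ := hp i h1
        refine ⟨a, b, fun d hd hcd => ?_⟩
        by_cases h2 : d + 1 < s
        · simp only [h2, if_true] at hcd
          exact hab d h2 hcd
        · by_cases h3 : d < s
          · simp only [h2, if_false, h3, if_true] at hcd
            omega
          · by_cases h4 : d + 1 < s + s'
            · simp only [h2, if_false, h3, h4, if_true] at hcd
              omega
            · simp only [h2, if_false, h3, h4] at hcd
              omega
      · by_cases h1' : i < s + s'
        · obtain ⟨a, b, hab⟩ := hp' (i - s) (by omega)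
          refine ⟨s + a, s + b, fun d hd hcd => ?_⟩
          by_cases h2 : d + 1 < s
          · simp only [h2, if_true] at hcd
            have := hc d h2
            omega
          · by_cases h3 : d < s
            · simp only [h2, if_false, h3, if_true] at hcd
              omega
            · by_cases h4 : d + 1 < s + s'
              · simp only [h2, if_false, h3, h4, if_true] at hcd
                rcases hab (d - s) (by omega) (by omega) with h5 | h5
                · left; omega
                · right; omega
              · simp only [h2, if_false, h3, h4] at hcd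
                omega
        · refine ⟨s - 1, s + s' - 1, fun d hd hcd => ?_⟩
          by_cases h2 : d + 1 < s
          · simp only [h2, if_true] at hcd
            have := hc d h2
            omega
          · by_cases h3 : d < s
            · left; omega
            · by_cases h4 : d + 1 < s + s'
              · simp only [h2, if_false, h3, h4, if_true] at hcd
                have := hc' (d - s) (by omega)
                omega
              · right; omega

theorem tre : T_TRE := by
  classical
  intro X ι V L s A0 h
  obtain ⟨A, c, o, hs, hA0, hL, hc, hsd, hp⟩ := tn_of_tl h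
  let P : Fin s → Finset (Fin s) := fun i => univ.filter fun a => (a : ℕ) + 1 < s ∧ c a = i
  have hcard : ∀ i, (P i).card ≤ 2 := by
    intro i
    obtain ⟨a, b, hab⟩ := hp i i.2
    have h1 : (P i).image (fun d : Fin s => (d : ℕ)) ⊆ {a, b} := by
      intro d hd
      obtain ⟨d', hd', rfl⟩ := mem_image.1 hd
      obtain ⟨-, h2, h3⟩ := mem_filter.1 hd'
      rcases hab d' h2 h3 with h4 | h4
      · rw [h4]; exact mem_insert_self _ _
      · rw [h4]; exact mem_insert_of_mem (mem_singleton_self _)
    have h2 := card_le_card h1
    rw [card_image_of_injective _ Fin.val_injective] at h2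
    exact h2.trans card_le_two
  have hlast : s - 1 < s := by omega
  let ln : Fin s → Fin s := fun t => ⟨s - 1 - t, by omega⟩
  have hln : ∀ t, ln (ln t) = t := by
    intro t
    apply Fin.ext
    show s - 1 - (s - 1 - (t : ℕ)) = t
    have := t.2
    omega
  refine ⟨{
    T := s
    A := fun i => A i
    P := P
    par := fun t => if h : (ln t : ℕ) + 1 < s then ⟨s - 1 - c (ln t), by omega⟩ else t
    bag := fun t => insert (ln t) (P (ln t))
    J := fun t => (o (ln t)).toFinset
    E := fun _ => ∅
    home := ln
    top := fun i => if h : (i : ℕ) + 1 < s then ⟨s - 1 - c i, by omega⟩ else ln i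
    mem := fun i => hL i i.2
    lt := ?_
    sound := ?_
    card_bag := ?_
    card_J := ?_
    card_E := fun _ => by simp
    home_mem := ?_
    prem_mem := ?_
    par_le := ?_
    conn := ?_ }, (⟨s - 1, hlast⟩ : Fin s), hA0⟩
  · intro i a ha
    obtain ⟨-, h2, h3⟩ := mem_filter.1 ha
    have := (hc a h2).1
    rw [h3] at this
    exact this
  · intro i x hx
    rcases hsd i i.2 x hx with ⟨a, h1, h2, h3⟩ | ⟨j, h1, h2⟩
    · left
      exact ⟨⟨a, by omega⟩, mem_filter.2 ⟨mem_univ _, h1, h2⟩, h3⟩
    · right; left
      refine ⟨j, ?_, h2⟩
      rw [hln]
      exact Option.mem_toFinset.2 h1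
  · intro t
    have := hcard (ln t)
    exact (card_insert_le _ _).trans (by omega)
  · intro t
    cases o (ln t) <;> simp
  · intro i
    show i ∈ insert (ln (ln i)) (P (ln (ln i)))
    rw [hln]
    exact mem_insert_self _ _
  · intro i
    show P i ⊆ insert (ln (ln i)) (P (ln (ln i)))
    rw [hln]
    exact subset_insert _ _
  · intro t
    show (if h : (ln t : ℕ) + 1 < s then (⟨s - 1 - c (ln t), by omega⟩ : Fin s) else t) ≤ t
    split_ifs with h1
    · have h2 := (hc _ h1).1
      show s - 1 - c (ln t) ≤ (t : ℕ)
      have h3 : ((ln t : Fin s) : ℕ) = s - 1 - t := rfl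
      have := t.2
      omega
    · exact le_rfl
  · intro t i hi hne
    have hne' : t ≠ (if h : (i : ℕ) + 1 < s then (⟨s - 1 - c i, by omega⟩ : Fin s) else ln i) := hne
    have ht := t.2
    rcases mem_insert.1 hi with h1 | h1
    · subst h1
      by_cases h2 : (ln t : ℕ) + 1 < s
      · have h3 := hc _ h2
        have h4 : ((ln t : Fin s) : ℕ) = s - 1 - t := rfl
        show (if h : (ln t : ℕ) + 1 < s then (⟨s - 1 - c (ln t), by omega⟩ : Fin s) else t) ≠ t ∧
          ln t ∈ insert (ln (if h : (ln t : ℕ) + 1 < s then
            (⟨s - 1 - c (ln t), by omega⟩ : Fin s) else t))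
            (P (ln (if h : (ln t : ℕ) + 1 < s then
            (⟨s - 1 - c (ln t), by omega⟩ : Fin s) else t)))
        rw [dif_pos h2]
        constructor
        · intro h5
          have h6 := congrArg Fin.val h5
          simp only at h6
          omega
        · refine mem_insert_of_mem (mem_filter.2 ⟨mem_univ _, h2, ?_⟩)
          show c (ln t) = s - 1 - (s - 1 - c (ln t))
          omega
      · exfalso
        rw [dif_neg h2, hln] at hne'
        exact hne' rfl
    · exfalso
      obtain ⟨-, h2, h3⟩ := mem_filter.1 h1
      rw [dif_pos h2] at hne'
      apply hne'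
      apply Fin.ext
      show (t : ℕ) = s - 1 - c i
      have h4 : ((ln t : Fin s) : ℕ) = s - 1 - t := rfl
      rw [h3, h4]
      omega

end Pool.Agent.H1.TW
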