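import Pool.Agent.H40.TW.Targets2

/-!
# The construction of the upper bound (module UPC)
-/

namespace Pool.Agent.H1.TW

open Finset Pool.Agent.H40.TW Pool.Agent.H80.SH

theorem ordU_lt {n : ℕ} (U : Finset (Fin n)) (x : Fin n → Bool) :
    ordU U x < 2 ^ (n - U.card) := by
  have h := (Fintype.equivFin ({i : Fin n // i ∉ U} → Bool) (fun i => x i.1)).2
  have h2 : Fintype.card ({i : Fin n // i ∉ U} → Bool) = 2 ^ (n - U.card) := by
    rw [Fintype.card_fun, Fintype.card_bool, Fintype.card_subtype_compl, Fintype.card_fin,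
      Fintype.card_coe]
  unfold ordU
  omega

theorem ordU_inj {n : ℕ} {U : Finset (Fin n)} {x y : Fin n → Bool} (h : ordU U x = ordU U y) :
    ∀ i, i ∉ U → x i = y i := by
  intro i hi
  have h1 := (Fintype.equivFin ({i : Fin n // i ∉ U} → Bool)).injective (Fin.ext h)
  exact congrFun h1 ⟨i, hi⟩

theorem Lup_mono {n w : ℕ} (U : Finset (Fin n)) {k l : ℕ} (h : k ≤ l) :
    Lup n w U k ⊆ Lup n w U l := by
  induction l, h using Nat.le_induction with
  | base => exact subset_rfl
  | succ l _ ih =>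
    refine ih.trans ?_
    rw [Lup]
    exact subset_union_left

theorem conf_mem {n w : ℕ} (U : Finset (Fin n)) {a : ℕ} (ha : a ≤ 2 ^ n) (S : List (Cl n w)) :
    conf U a S ∈ Lup n w U S.length := by
  classical
  induction S with
  | nil =>
    rw [List.length_nil, Lup, mem_image]
    exact ⟨a, by rw [mem_range]; omega, rfl⟩
  | cons c S ih =>
    rw [List.length_cons, Lup, mem_union]
    right
    rw [mem_image]
    refine ⟨(conf U a S, a, c), ?_, ?_⟩
    · rw [mem_product, mem_product]
      exact ⟨ih, mem_range.2 (Nat.lt_succ_of_le ha), mem_univ _⟩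
    · ext x
      simp only [conf, mem_union, mem_filter, mem_univ, true_and, List.mem_cons, exists_eq_or_imp]
      constructor
      · rintro ((h | ⟨h, h'⟩) | ⟨h, h'⟩)
        · exact Or.inl h
        · exact Or.inr ⟨h, Or.inr h'⟩
        · exact Or.inr ⟨h, Or.inl h'⟩
      · rintro (h | ⟨h, h' | h'⟩)
        · exact Or.inl (Or.inl h)
        · exact Or.inr ⟨h, h'⟩
        · exact Or.inl (Or.inr ⟨h, h'⟩)

theorem upc (hPTH : T_PTH) : T_UPC := by
  classical
  intro n w u r Q U F hF1 hF2
  have hidx : ∀ a : ℕ, ∃ l : List (Fin r), l.length ≤ Q ∧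
      ∀ x, ordU U x = a → ∃ j ∈ l, x ∈ VC (F j) := by
    intro a
    by_cases h : ∃ x0, ordU U x0 = a
    · obtain ⟨x0, hx0⟩ := h
      have hfin : ({j | Slim U u (F j) ∧ ∀ i ∈ (F j).1.1, i ∉ U → x0 i = (F j).2 i} :
        Set (Fin r)).Finite := Set.toFinite _
      refine ⟨hfin.toFinset.toList, ?_, ?_⟩
      · rw [length_toList, ← Set.ncard_eq_toFinset_card _ hfin]
        exact hF2 x0
      · intro x hx
        obtain ⟨j, hj1, hj2⟩ := hF1 x
        refine ⟨j, ?_, hj2⟩
        rw [mem_toList, Set.Finite.mem_toFinset]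
        refine ⟨hj1, fun i hi hiU => ?_⟩
        have h1 : x i = (F j).2 i := (mem_filter.1 hj2).2 i hi
        rw [← h1]
        exact ordU_inj (hx0.trans hx.symm) i hiU
    · refine ⟨[], by simp, fun x hx => absurd ⟨x, hx⟩ h⟩
  choose idx hidx1 hidx2 using hidx
  let M := 2 ^ (n - U.card)
  have hM : 1 ≤ M := Nat.one_le_two_pow
  let B : ℕ → Finset (Fin n → Bool) := fun t =>
    conf U (t / (Q + 1)) (((idx (t / (Q + 1))).take (t % (Q + 1))).map F)
  let jt : ℕ → Finset (Fin r) := fun t => ((idx (t / (Q + 1)))[t % (Q + 1)]?).toList.toFinset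
  have hk : 1 ≤ M * (Q + 1) := Nat.mul_pos hM (by omega)
  have hA : ∀ t, t ≤ M * (Q + 1) → B t ∈ Lup n w U Q := by
    intro t ht
    have h1 : t / (Q + 1) ≤ M := by
      calc t / (Q + 1) ≤ M * (Q + 1) / (Q + 1) := Nat.div_le_div_right ht
        _ = M := Nat.mul_div_cancel _ (by omega)
    have h2 : M ≤ 2 ^ n := Nat.pow_le_pow_right (by norm_num) (by omega)
    refine Lup_mono U ?_ (conf_mem U (h1.trans h2) _)
    rw [List.length_map, List.length_take]
    have := Nat.mod_lt t (show 0 < Q + 1 by omega)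
    omega
  have hB : B 0 = ∅ := by
    ext x
    simp [B, conf]
  have hC : ∀ t, (jt t).card ≤ 1 := by
    intro t
    refine (List.toFinset_card_le _).trans ?_
    cases (idx (t / (Q + 1)))[t % (Q + 1)]? <;> simp
  have hD : ∀ t, t < M * (Q + 1) → ∀ x ∈ B (t + 1), x ∈ B t ∨ ∃ i ∈ jt t, x ∈ VC (F i) := by
    intro t _ x hx
    have hmod := Nat.mod_lt t (show 0 < Q + 1 by omega)
    have hdm := Nat.div_add_mod t (Q + 1)
    by_cases hs : t % (Q + 1) < Q
    · have h1 : (t + 1) / (Q + 1) = t / (Q + 1) := by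
        rw [Nat.div_eq_of_lt_le]
        · rw [mul_comm]; omega
        · rw [mul_comm]
          have : (Q + 1) * (t / (Q + 1) + 1) = (Q + 1) * (t / (Q + 1)) + (Q + 1) := by ring
          omega
      have h2 : (t + 1) % (Q + 1) = t % (Q + 1) + 1 := by
        have h3 := Nat.div_add_mod (t + 1) (Q + 1)
        rw [h1] at h3
        omega
      simp only [B, conf, mem_filter, mem_univ, true_and, h1, h2] at hx ⊢
      rcases hx with hx | ⟨hx, c, hc, hxc⟩
      · exact Or.inl (Or.inl hx)
      · rw [List.mem_map] at hc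
        obtain ⟨j, hj, rfl⟩ := hc
        rw [List.take_add_one, List.mem_append] at hj
        rcases hj with hj | hj
        · exact Or.inl (Or.inr ⟨hx, F j, List.mem_map.2 ⟨j, hj, rfl⟩, hxc⟩)
        · right
          refine ⟨j, ?_, hxc⟩
          exact List.mem_toFinset.2 hj
    · have hsQ : t % (Q + 1) = Q := by omega
      have h1 : (t + 1) / (Q + 1) = t / (Q + 1) + 1 := by
        rw [Nat.div_eq_of_lt_le]
        · have : (Q + 1) * (t / (Q + 1) + 1) = (Q + 1) * (t / (Q + 1)) + (Q + 1) := by ring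
          rw [mul_comm]; omega
        · have : (Q + 1) * (t / (Q + 1) + 1 + 1) =
            (Q + 1) * (t / (Q + 1)) + (Q + 1) + (Q + 1) := by ring
          rw [mul_comm]; omega
      have h2 : (t + 1) % (Q + 1) = 0 := by
        have h3 := Nat.div_add_mod (t + 1) (Q + 1)
        rw [h1] at h3
        have : (Q + 1) * (t / (Q + 1) + 1) = (Q + 1) * (t / (Q + 1)) + (Q + 1) := by ring
        omega
      left
      simp only [B, conf, mem_filter, mem_univ, true_and, h1, h2, List.take_zero, List.map_nil,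
        List.not_mem_nil, false_and, exists_false, and_false, or_false] at hx
      simp only [B, conf, mem_filter, mem_univ, true_and, hsQ]
      rcases Nat.lt_succ_iff_lt_or_eq.1 hx with hx | hx
      · exact Or.inl hx
      · right
        obtain ⟨j, hj, hxj⟩ := hidx2 _ x hx
        refine ⟨hx, F j, List.mem_map.2 ⟨j, ?_, rfl⟩, hxj⟩
        rw [List.take_of_length_le (hidx1 _)]
        exact hj
  obtain ⟨R, i, hi⟩ := hPTH (Fin n → Bool) (Fin r) (fun j => VC (F j)) (Lup n w U Q)
    (M * (Q + 1)) B jt hk hA hB hC hD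
  refine ⟨M * (Q + 1), R, le_refl _, i, ?_⟩
  rw [hi]
  ext x
  have h1 : M * (Q + 1) / (Q + 1) = M := Nat.mul_div_cancel _ (by omega)
  simp only [B, conf, mem_filter, mem_univ, true_and, h1, iff_true]
  left
  exact ordU_lt U x

end Pool.Agent.H1.TW
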