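import Pool.Agent.H40.TW.Targets2
import Pool.Agent.H80.SH.Targets

/-!
# The number of the configurations of the upper bound (module UPL)
-/

namespace Pool.Agent.H1.TW

open Finset Pool.Agent.H40.TW Pool.Agent.H80.SH

theorem upl (hPRS : T_PRS) : T_UPL := by
  intro n w k U hn hw
  have hcl : Fintype.card (Cl n w) ≤ 2 ^ (2 * n) := by
    rw [(hPRS n w hw).1, two_mul, pow_add]
    exact Nat.mul_le_mul_right _ (Nat.choose_le_two_pow n w)
  induction k with
  | zero =>
    have h1 : (Lup n w U 0).card ≤ 2 ^ n + 1 := by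
      unfold Lup
      exact card_image_le.trans (by rw [card_range])
    have h2 : 2 ^ n + 1 ≤ 2 ^ (n + 1) := by
      rw [pow_succ]
      have := Nat.one_le_two_pow (n := n)
      omega
    exact h1.trans (h2.trans (Nat.pow_le_pow_right (by norm_num) (by omega)))
  | succ k ih =>
    have h1 : (Lup n w U (k + 1)).card ≤
        (Lup n w U k).card + (Lup n w U k).card * ((2 ^ n + 1) * 2 ^ (2 * n)) := by
      rw [Lup]
      refine (card_union_le _ _).trans (Nat.add_le_add_left ?_ _)
      refine card_image_le.trans ?_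
      rw [card_product, card_product, card_range, card_univ]
      gcongr
    have h2 : 1 + (2 ^ n + 1) * 2 ^ (2 * n) ≤ 2 ^ (4 * n) := by
      have h3 : 2 ≤ 2 ^ n := by
        calc 2 = 2 ^ 1 := by norm_num
          _ ≤ 2 ^ n := Nat.pow_le_pow_right (by norm_num) hn
      have h4 : 2 ^ (2 * n) = 2 ^ n * 2 ^ n := by rw [two_mul, pow_add]
      have h5 : 2 ^ (4 * n) = 2 ^ n * 2 ^ n * (2 ^ n * 2 ^ n) := by
        rw [← h4, ← pow_add]
        congr 1
        ring
      rw [h4, h5]
      generalize 2 ^ n = a at *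
      nlinarith [Nat.mul_le_mul h3 h3, mul_self_nonneg a, Nat.mul_le_mul h3 (Nat.mul_le_mul h3 h3)]
    calc (Lup n w U (k + 1)).card ≤ (Lup n w U k).card * (1 + (2 ^ n + 1) * 2 ^ (2 * n)) := by
          rw [mul_add, mul_one]; exact h1
      _ ≤ 2 ^ (4 * n * (k + 1) + 1) * 2 ^ (4 * n) := Nat.mul_le_mul ih h2
      _ = 2 ^ (4 * n * (k + 1 + 1) + 1) := by
          rw [← pow_add]
          congr 1
          ring

end Pool.Agent.H1.TW
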