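import Pool.Agent.H40.TW.Targets
import Pool.Agent.H40.TW.Targets2
import Pool.Agent.H1.TW.DEN

/-!
# The random part of the upper bound (module UPR)
-/

namespace Pool.Agent.H1.TW

open Finset Pool.Agent.H40.TW Pool.Agent.H80.SH

/-- the number of the `w`-sets containing `i` -/
theorem card_contain {n w : ℕ} (i : Fin n) (hw : w ≤ n) :
    n * (((univ : Finset (Fin n)).powersetCard w).filter (fun W => i ∈ W)).card =
      w * n.choose w := by
  classical
  have h1 : (((univ : Finset (Fin n)).powersetCard w).filter (fun W => ¬ i ∈ W)) =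
      (univ.erase i).powersetCard w := by
    ext W
    simp only [mem_filter, mem_powersetCard, subset_univ, true_and]
    constructor
    · rintro ⟨h, h'⟩
      exact ⟨fun j hj => mem_erase.2 ⟨fun hji => h' (hji ▸ hj), mem_univ _⟩, h⟩
    · rintro ⟨h, h'⟩
      exact ⟨h', fun hi => absurd (h hi) (notMem_erase i _)⟩
  have h2 := card_filter_add_card_filter_not (s := (univ : Finset (Fin n)).powersetCard w)
    (p := fun W => i ∈ W)
  rw [h1, card_powersetCard, card_powersetCard, card_erase_of_mem (mem_univ i), card_univ,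
    Fintype.card_fin] at h2
  obtain ⟨k, rfl⟩ : ∃ k, n = k + 1 := ⟨n - 1, by have := i.2; omega⟩
  rw [Nat.add_sub_cancel] at h2
  have h3 := Nat.choose_mul_succ_eq k w
  rw [← Nat.mul_right_cancel_iff (m := 1) (by norm_num)]
  obtain ⟨v, hv⟩ : ∃ v, k + 1 = w + v := ⟨k + 1 - w, by omega⟩
  have h4 : k + 1 - w = v := by omega
  rw [h4] at h3
  have h5 : (k + 1) * (((univ : Finset (Fin (k + 1))).powersetCard w).filter
      (fun W => i ∈ W)).card + (k + 1) * k.choose w = (k + 1) * (k + 1).choose w := by
    rw [← mul_add, h2]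
  have h6 : (k + 1) * (k + 1).choose w = w * (k + 1).choose w + (k + 1).choose w * v := by
    rw [hv]; ring
  have h7 : (k + 1) * k.choose w = (k + 1).choose w * v := by
    rw [← h3]; ring
  omega

/-- the sets which are not slim, by the inequality of Markov -/
theorem card_fat {n w : ℕ} (U : Finset (Fin n)) (u : ℕ) (hw : w ≤ n) :
    n * ((u + 1) * (((univ : Finset (Fin n)).powersetCard w).filter
      (fun W => ¬ (W ∩ U).card ≤ u)).card) ≤ U.card * (w * n.choose w) := by
  classical
  have h1 : (u + 1) * (((univ : Finset (Fin n)).powersetCard w).filter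
      (fun W => ¬ (W ∩ U).card ≤ u)).card ≤
      ∑ W ∈ (univ : Finset (Fin n)).powersetCard w, (W ∩ U).card := by
    calc _ = ∑ W ∈ ((univ : Finset (Fin n)).powersetCard w).filter
          (fun W => ¬ (W ∩ U).card ≤ u), (u + 1) := by
          rw [sum_const, smul_eq_mul, mul_comm]
      _ ≤ ∑ W ∈ ((univ : Finset (Fin n)).powersetCard w).filter
          (fun W => ¬ (W ∩ U).card ≤ u), (W ∩ U).card := by
          refine sum_le_sum fun W hW => ?_
          have := (mem_filter.1 hW).2
          omega
      _ ≤ _ := sum_le_sum_of_subset (filter_subset _ _)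
  have h2 : ∑ W ∈ (univ : Finset (Fin n)).powersetCard w, (W ∩ U).card =
      ∑ i ∈ U, (((univ : Finset (Fin n)).powersetCard w).filter (fun W => i ∈ W)).card := by
    have h3 : ∀ W : Finset (Fin n), (W ∩ U).card = ∑ i ∈ U, if i ∈ W then 1 else 0 := by
      intro W
      rw [← card_filter]
      congr 1
      ext i
      simp [and_comm]
    rw [sum_congr rfl fun W _ => h3 W, sum_comm]
    refine sum_congr rfl fun i _ => ?_
    rw [card_filter]
  calc _ ≤ n * ∑ i ∈ U, (((univ : Finset (Fin n)).powersetCard w).filter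
        (fun W => i ∈ W)).card := Nat.mul_le_mul_left _ (h2 ▸ h1)
    _ = ∑ i ∈ U, w * n.choose w := by
        rw [mul_sum]
        exact sum_congr rfl fun i _ => card_contain i hw
    _ = _ := by rw [sum_const, smul_eq_mul]

/-- sums over concrete clauses -/
theorem card_cl {n w : ℕ} (p : Finset (Fin n) → (Fin n → Bool) → Prop)
    [∀ W, DecidablePred (p W)] :
    (univ.filter (fun c : Cl n w => p c.1.1 c.2)).card =
      ∑ W ∈ (univ : Finset (Fin n)).powersetCard w, (univ.filter (fun y => p W y)).card := by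
  classical
  have h1 : (univ.filter (fun c : Cl n w => p c.1.1 c.2)).card =
      ∑ W : {U : Finset (Fin n) // U.card = w}, (univ.filter (fun y => p W.1 y)).card := by
    rw [card_filter, Fintype.sum_prod_type]
    refine sum_congr rfl fun W _ => ?_
    rw [card_filter]
  rw [h1]
  refine (sum_subtype ((univ : Finset (Fin n)).powersetCard w)
    (p := fun U => U.card = w) (fun U => by simp [mem_powersetCard])
    (fun W => (univ.filter (fun y => p W y)).card)).symm

open Classical in
/-- the slim clauses violated by `x` -/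
theorem card_slim {n w u C : ℕ} (U : Finset (Fin n)) (hn : 1 ≤ n) (hw : w ≤ n)
    (hPRS : T_PRS)
    (hC : n * (u + 1) * 4 + C * (U.card * w) ≤ C * (n * (u + 1))) (x : Fin n → Bool) :
    4 * Fintype.card (Cl n w) ≤
      C * ((univ.filter (fun c : Cl n w => Slim U u c ∧ x ∈ VC c)).card * 2 ^ w) := by
  have h1 : (univ.filter (fun c : Cl n w => Slim U u c ∧ x ∈ VC c)).card * 2 ^ w =
      (((univ : Finset (Fin n)).powersetCard w).filter (fun W => (W ∩ U).card ≤ u)).card *
        2 ^ n := by
    have h2 : (univ.filter (fun c : Cl n w => Slim U u c ∧ x ∈ VC c)).card =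
        (univ.filter (fun c : Cl n w => (c.1.1 ∩ U).card ≤ u ∧ ∀ i ∈ c.1.1, x i = c.2 i)).card := by
      congr 1
      ext c
      simp [Slim, VC]
    rw [h2, card_cl (w := w) (fun W y => (W ∩ U).card ≤ u ∧ ∀ i ∈ W, x i = y i), sum_mul,
      card_filter, sum_mul]
    refine sum_congr rfl fun W hW => ?_
    split_ifs with h
    · simp only [h, true_and, one_mul]
      rw [← (mem_powersetCard.1 hW).2]
      exact card_agree W x
    · simp [h]
  rw [h1]
  have h3 := card_fat (w := w) U u hw
  have h4 := card_filter_add_card_filter_not (s := (univ : Finset (Fin n)).powersetCard w)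
    (p := fun W => (W ∩ U).card ≤ u)
  rw [card_powersetCard, card_univ, Fintype.card_fin] at h4
  set a := (((univ : Finset (Fin n)).powersetCard w).filter
    (fun W => (W ∩ U).card ≤ u)).card
  set b := (((univ : Finset (Fin n)).powersetCard w).filter
    (fun W => ¬ (W ∩ U).card ≤ u)).card
  have h5 : 4 * n.choose w ≤ C * a := by
    have hpos : 0 < n * (u + 1) := by positivity
    refine Nat.le_of_mul_le_mul_left ?_ hpos
    have h6 : n * (u + 1) * (a + b) = n * (u + 1) * n.choose w := by rw [h4]
    have h7 : C * (n * ((u + 1) * b)) ≤ C * (U.card * (w * n.choose w)) :=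
      Nat.mul_le_mul_left _ h3
    have h8 : (n * (u + 1) * 4 + C * (U.card * w)) * n.choose w ≤
        C * (n * (u + 1)) * n.choose w := Nat.mul_le_mul_right _ hC
    nlinarith
  rw [(hPRS n w hw).1]
  calc 4 * (n.choose w * 2 ^ n) = (4 * n.choose w) * 2 ^ n := by ring
    _ ≤ (C * a) * 2 ^ n := Nat.mul_le_mul_right _ h5
    _ = _ := by ring

open Classical in
/-- the slim clauses which meet a cell -/
theorem card_meet {n w u : ℕ} (U : Finset (Fin n)) (hw : w ≤ n) (hPRS : T_PRS)
    (x : Fin n → Bool) :
    2 ^ (w - u) * (univ.filter (fun c : Cl n w => Slim U u c ∧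
      ∀ i ∈ c.1.1, i ∉ U → x i = c.2 i)).card ≤ Fintype.card (Cl n w) := by
  have h2 : (univ.filter (fun c : Cl n w => Slim U u c ∧
      ∀ i ∈ c.1.1, i ∉ U → x i = c.2 i)).card =
      (univ.filter (fun c : Cl n w => (c.1.1 ∩ U).card ≤ u ∧
        ∀ i ∈ c.1.1 \ U, x i = c.2 i)).card := by
    congr 1
    ext c
    rw [mem_filter, mem_filter]
    simp only [Slim, mem_univ, true_and, mem_sdiff, and_imp]
  rw [h2, card_cl (w := w) (fun W y => (W ∩ U).card ≤ u ∧ ∀ i ∈ W \ U, x i = y i),
    (hPRS n w hw).1, mul_sum]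
  calc _ ≤ ∑ W ∈ (univ : Finset (Fin n)).powersetCard w, 2 ^ n := by
        refine sum_le_sum fun W hW => ?_
        by_cases h : (W ∩ U).card ≤ u
        · simp only [h, true_and]
          have h3 := card_agree (W \ U) x
          have h4 : w - u ≤ (W \ U).card := by
            have h5 := card_inter_add_card_sdiff W U
            rw [(mem_powersetCard.1 hW).2] at h5
            omega
          calc _ ≤ 2 ^ (W \ U).card *
                (univ.filter (fun y : Fin n → Bool => ∀ i ∈ W \ U, x i = y i)).card :=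
                Nat.mul_le_mul_right _ (Nat.pow_le_pow_right (by norm_num) h4)
            _ = 2 ^ n := by rw [mul_comm]; exact h3
        · simp [h]
    _ = _ := by rw [sum_const, card_powersetCard, card_univ, Fintype.card_fin, smul_eq_mul]

/-- tuples avoiding a set -/
theorem card_avoid {α : Type} [Fintype α] [DecidableEq α] (S : Finset α) (r : ℕ) :
    (univ.filter (fun F : Fin r → α => ∀ j, F j ∉ S)).card =
      (Fintype.card α - S.card) ^ r := by
  classical
  have h : univ.filter (fun F : Fin r → α => ∀ j, F j ∉ S) =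
      Fintype.piFinset (fun _ : Fin r => Sᶜ) := by
    ext F
    simp [Fintype.mem_piFinset]
  rw [h, Fintype.card_piFinset]
  simp [card_compl]

theorem upr (hTAI : T_TAI) (hPRS : T_PRS) : T_UPR := by
  classical
  intro n w u C Q U hn hw hC hQ hnQ
  set r := C * n * 2 ^ w with hr
  have hcard : 0 < Fintype.card (Cl n w) := by
    rw [(hPRS n w hw).1]
    exact Nat.mul_pos (Nat.choose_pos hw) (by positivity)
  -- first event
  let S : (Fin n → Bool) → Finset (Cl n w) := fun x =>
    univ.filter (fun c : Cl n w => Slim U u c ∧ x ∈ VC c)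
  let B1 : (Fin n → Bool) → Finset (Fin r → Cl n w) := fun x =>
    univ.filter (fun F => ∀ j, F j ∉ S x)
  have hB1 : ∀ x, ((B1 x).card : ℝ) ≤ Real.exp (-(4 * n)) * (Fintype.card (Cl n w) : ℝ) ^ r := by
    intro x
    have h1 := card_avoid (S x) r
    have h2 := card_slim U hn hw hPRS hC x
    have hS : (S x).card ≤ Fintype.card (Cl n w) := card_le_univ _
    have hc : (0 : ℝ) < Fintype.card (Cl n w) := by exact_mod_cast hcard
    have h3 : ((B1 x).card : ℝ) = ((Fintype.card (Cl n w) : ℝ) - (S x).card) ^ r := by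
      change ((univ.filter (fun F : Fin r → Cl n w => ∀ j, F j ∉ S x)).card : ℝ) = _
      rw [h1]
      push_cast [Nat.cast_sub hS]
      ring
    have h4 : (4 : ℝ) * Fintype.card (Cl n w) ≤ C * ((S x).card * 2 ^ w) := by exact_mod_cast h2
    have hCpos : (0 : ℝ) < C := by
      rcases Nat.eq_zero_or_pos C with h0 | h0
      · subst h0
        simp only [Nat.cast_zero, zero_mul] at h4
        linarith
      · exact_mod_cast h0
    have h5 : ((Fintype.card (Cl n w) : ℝ) - (S x).card) ≤
        Real.exp (-(4 / (C * 2 ^ w))) * Fintype.card (Cl n w) := by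
      have h6 : 1 - 4 / (C * 2 ^ w : ℝ) ≤ Real.exp (-(4 / (C * 2 ^ w))) := by
        have := Real.add_one_le_exp (-(4 / (C * 2 ^ w) : ℝ))
        linarith
      have h7 : (4 / (C * 2 ^ w : ℝ)) * Fintype.card (Cl n w) ≤ (S x).card := by
        rw [div_mul_eq_mul_div, div_le_iff₀ (by positivity)]
        linarith
      have h8 := mul_le_mul_of_nonneg_right h6 hc.le
      linarith
    have h9 : (0 : ℝ) ≤ (Fintype.card (Cl n w) : ℝ) - (S x).card := by
      have : ((S x).card : ℝ) ≤ Fintype.card (Cl n w) := by exact_mod_cast hS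
      linarith
    rw [h3]
    calc _ ≤ (Real.exp (-(4 / (C * 2 ^ w))) * Fintype.card (Cl n w)) ^ r :=
          pow_le_pow_left₀ h9 h5 r
      _ = Real.exp (-(4 * n)) * (Fintype.card (Cl n w) : ℝ) ^ r := by
          rw [mul_pow, ← Real.exp_nat_mul]
          congr 2
          rw [hr]
          push_cast
          field_simp
  -- second event
  let D : (Fin n → Bool) → Finset (Cl n w) := fun x =>
    univ.filter (fun c : Cl n w => Slim U u c ∧ ∀ i ∈ c.1.1, i ∉ U → x i = c.2 i)
  have hT : ∀ x, ∃ B : Finset (Fin r → Cl n w), 2 ^ (Q + 1) * B.card ≤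
      Fintype.card (Cl n w) ^ r ∧
      ∀ F, F ∉ B → (univ.filter (fun j => F j ∈ D x)).card < Q + 1 := by
    intro x
    refine hTAI (Cl n w) r (Q + 1) (2 ^ (w - u)) (D x) (by omega) (card_meet U hw hPRS x) ?_
    have h1 : 2 ^ w ≤ 2 ^ u * 2 ^ (w - u) := by
      rw [← pow_add]
      exact Nat.pow_le_pow_right (by norm_num) (by omega)
    calc 8 * r = 8 * (C * n) * 2 ^ w := by rw [hr]; ring
      _ ≤ 8 * (C * n) * (2 ^ u * 2 ^ (w - u)) := Nat.mul_le_mul_left _ h1
      _ = 2 ^ (w - u) * (8 * (C * n) * 2 ^ u) := by ring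
      _ ≤ 2 ^ (w - u) * (Q + 1) := Nat.mul_le_mul_left _ (by omega)
  choose B2 hB2 hB2' using hT
  refine ⟨univ.biUnion B1 ∪ univ.biUnion B2, ?_, ?_⟩
  · have hM : (0 : ℝ) ≤ (Fintype.card (Cl n w) : ℝ) ^ r := by positivity
    have h1 : ((univ.biUnion B1).card : ℝ) ≤
        2 ^ n * (Real.exp (-(4 * n)) * (Fintype.card (Cl n w) : ℝ) ^ r) := by
      calc ((univ.biUnion B1).card : ℝ) ≤ ∑ x, ((B1 x).card : ℝ) := by
            exact_mod_cast card_biUnion_le
        _ ≤ ∑ x : Fin n → Bool, Real.exp (-(4 * n)) * (Fintype.card (Cl n w) : ℝ) ^ r :=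
            sum_le_sum fun x _ => hB1 x
        _ = _ := by
            rw [sum_const, card_univ, Fintype.card_fun, Fintype.card_bool, Fintype.card_fin,
              nsmul_eq_mul]
            push_cast
            ring
    have h2 : (2 : ℝ) ^ n * Real.exp (-(4 * n)) ≤ 1 / 8 := by
      have h3 : Real.exp (-(4 * n)) = Real.exp (-4) ^ n := by
        rw [← Real.exp_nat_mul]
        congr 1
        ring
      rw [h3, ← mul_pow]
      have h4 : (2 : ℝ) * Real.exp (-4) ≤ 1 / 8 := by
        have h5 : Real.exp (-4) = (Real.exp 1)⁻¹ ^ 4 := by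
          rw [← Real.exp_neg, ← Real.exp_nat_mul]
          norm_num
        have h6 : (Real.exp 1)⁻¹ ≤ 1 / 2 := by
          rw [inv_eq_one_div]
          refine one_div_le_one_div_of_le (by norm_num) ?_
          have := Real.exp_one_gt_d9
          linarith
        rw [h5]
        calc 2 * (Real.exp 1)⁻¹ ^ 4 ≤ 2 * (1 / 2 : ℝ) ^ 4 := by
              have := pow_le_pow_left₀ (by positivity) h6 4
              linarith
          _ = 1 / 8 := by norm_num
      calc (2 * Real.exp (-4)) ^ n ≤ (2 * Real.exp (-4)) ^ 1 :=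
            pow_le_pow_of_le_one (by positivity) (by linarith) hn
        _ ≤ _ := by rw [pow_one]; exact h4
    have h3 : 32 * (univ.biUnion B2).card ≤ Fintype.card (Cl n w) ^ r := by
      have h4 : 2 ^ (Q + 1) * (univ.biUnion B2).card ≤ 2 ^ n * Fintype.card (Cl n w) ^ r := by
        calc 2 ^ (Q + 1) * (univ.biUnion B2).card ≤ 2 ^ (Q + 1) * ∑ x, (B2 x).card :=
              Nat.mul_le_mul_left _ card_biUnion_le
          _ = ∑ x, 2 ^ (Q + 1) * (B2 x).card := mul_sum _ _ _
          _ ≤ ∑ x : Fin n → Bool, Fintype.card (Cl n w) ^ r := sum_le_sum fun x _ => hB2 x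
          _ = _ := by
              rw [sum_const, card_univ, Fintype.card_fun, Fintype.card_bool, Fintype.card_fin,
                smul_eq_mul]
      have h5 : 2 ^ n * 32 ≤ 2 ^ (Q + 1) := by
        rw [show (32 : ℕ) = 2 ^ 5 by norm_num, ← pow_add]
        exact Nat.pow_le_pow_right (by norm_num) (by omega)
      have h6 : 2 ^ n * (32 * (univ.biUnion B2).card) ≤ 2 ^ n * Fintype.card (Cl n w) ^ r := by
        calc _ = 2 ^ n * 32 * (univ.biUnion B2).card := by ring
          _ ≤ 2 ^ (Q + 1) * (univ.biUnion B2).card := Nat.mul_le_mul_right _ h5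
          _ ≤ _ := h4
      exact Nat.le_of_mul_le_mul_left h6 (by positivity)
    have h4 : (4 : ℝ) * ((univ.biUnion B1 ∪ univ.biUnion B2).card : ℝ) ≤
        (Fintype.card (Cl n w) : ℝ) ^ r := by
      have h5 : ((univ.biUnion B1 ∪ univ.biUnion B2).card : ℝ) ≤
          (univ.biUnion B1).card + (univ.biUnion B2).card := by
        exact_mod_cast card_union_le _ _
      have h6 : (32 : ℝ) * ((univ.biUnion B2).card : ℝ) ≤
          (Fintype.card (Cl n w) : ℝ) ^ r := by exact_mod_cast h3
      have h7 := mul_le_mul_of_nonneg_right h2 hM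
      nlinarith
    exact_mod_cast h4
  · intro F hF
    simp only [mem_union, mem_biUnion, mem_univ, true_and, not_or, not_exists] at hF
    obtain ⟨hF1, hF2⟩ := hF
    constructor
    · intro x
      have h1 := hF1 x
      simp only [B1, mem_filter, mem_univ, true_and, not_forall, not_not] at h1
      obtain ⟨j, hj⟩ := h1
      exact ⟨j, (mem_filter.1 hj).2⟩
    · intro x
      have h1 := hB2' x F (hF2 x)
      have h2 : ({j | Slim U u (F j) ∧ ∀ i ∈ (F j).1.1, i ∉ U → x i = (F j).2 i} :
          Set (Fin r)) = ((univ.filter (fun j => F j ∈ D x) : Finset (Fin r)) : Set (Fin r)) := by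
        ext j
        simp [D]
      rw [h2, Set.ncard_coe_finset]
      omega

end Pool.Agent.H1.TW
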